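import Pool.Agent.Helper96.Baire.Fun

set_option autoImplicit false

/-!
# Baire `σ`-algebras of `C_p(K)` and `C_w(K)` for spaces with subsequential interpolation

If a compact space `K` maps continuously onto an infinite compact space `L` which is an F-space,
or has the subsequential interpolation property for functions, or is totally disconnected with the
subsequential interpolation property for clopen sets, then the Baire `σ`-algebra of `C(K)` with
the pointwise topology is strictly smaller than the one of the weak topology.
-/

namespace Pool.Agent.Results.MP_bb644c_an.BaireInterpolation

open Pool.Agent.Helper96.Baire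

theorem result (K : Type*) [TopologicalSpace K] [CompactSpace K] [T2Space K]
    (L : Type*) [TopologicalSpace L] [CompactSpace L] [T2Space L] [Infinite L]
    (p : C(K, L)) (hp : Function.Surjective p)
    (hL : FSpace L ∨ SIPFun L ∨ (TotallyDisconnectedSpace L ∧ SIPClopen L)) :
    Ba (tp K) < Ba (tw K) := by
  refine lt_of_le_not_ge ba_le (fun hle => ?_)
  have hW : WM L := wm_image p hp (wm_of_le hle)
  rcases hL with h | h | ⟨h1, h2⟩
  · exact main_fun (sip_of_fspace h) hW
  · exact main_fun h hW
  · exact main_clopen h2 hW

end Pool.Agent.Results.MP_bb644c_an.BaireInterpolation
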