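import Pool.Agent.GB.FinalAux
import Pool.Agent.GB.FIN
import Pool.Agent.GB.Aip
import Pool.Agent.GB.G7

set_option autoImplicit false

/-!
# An infinite Grothendieck space `C(K)` with equal Baire `σ`-algebras

There is (in ZFC) an infinite compact Hausdorff space `K` such that `C(K)` is a Grothendieck space
and the Baire `σ`-algebras of `C(K)` with the topology of pointwise convergence and with the weak
topology coincide.
-/

namespace Pool.Agent.Results.MP_bb644c_an.GrothendieckEqualBaire

open Pool.Agent.Helper96.Baire Pool.Agent.GB

theorem result : ∃ (X : Type) (_ : TopologicalSpace X) (_ : CompactSpace X) (_ : T2Space X)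
    (_ : Infinite X), Grothendieck C(X, ℝ) ∧ Ba (tp X) = Ba (tw X) :=
  ⟨K, inferInstance, inferInstance, inferInstance, inferInstance, grothendieck_of_AIP K_AIP,
    ba_eq_of_functionals K functional_measurable⟩

end Pool.Agent.Results.MP_bb644c_an.GrothendieckEqualBaire
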